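import Pool.Agent.KS6_9.GH.Space

/-! Distance sets, isometries and Gromov-Hausdorff distances of the spaces `Sp P w`. -/

set_option autoImplicit false
set_option linter.style.haveILetI false

open Set Metric
open scoped symmDiff ENNReal

namespace Pool.Agent.KS6_9.GH

variable {D : Set ℝ} {P : Pairs D} (hD : Ok D)

lemma zero_R (hD : Ok D) : (0 : ℝ) ∈ P.R :=
  ⟨hD.zero, fun n _ => ⟨(P.s_pos n).ne, ((P.s_pos n).trans (P.lt n)).ne⟩⟩

lemma g_mem (w : ℕ → Bool) (S : Finset ℕ) (n : ℕ) (hD : Ok D) : P.g w S n ∈ D := by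
  unfold Pairs.g; split_ifs
  exacts [hD.zero, P.s_mem n, P.t_mem n]

lemma d2_mem_R {a b : ℝ} (hD : Ok D) (ha : a ∈ P.R) (hb : b ∈ P.R) : Pairs.d2 a b ∈ P.R := by
  unfold Pairs.d2; split_ifs
  · exact zero_R hD
  · rcases max_choice a b with h | h <;> rw [h] <;> assumption

section

variable (w : ℕ → Bool)

lemma dist_def (p q : Sp P w) : @dist _ (Sp.ms hD w).toDist p q =
    max (P.d1 w p.fs q.fs) (Pairs.d2 p.r q.r) := rfl

lemma d1_level {S T : Finset ℕ} {n : ℕ} (h : lev S T = n) (hn : n ≠ 0) :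
    P.d1 w S T = if decide (n ∈ S) = w n then P.s n else P.t n := by
  unfold Pairs.d1 Pairs.g; rw [h, if_neg hn]

/-- the distances of a point tell the pattern -/
lemma pattern (p : Sp P w) {n : ℕ} (hn : n ≠ 0) :
    (∃ q, @dist _ (Sp.ms hD w).toDist p q = P.s n) ↔ decide (n ∈ p.fs) = w n := by
  constructor
  · rintro ⟨q, hq⟩
    rw [dist_def] at hq
    have h1 : P.d1 w p.fs q.fs = P.s n := by
      rcases max_choice (P.d1 w p.fs q.fs) (Pairs.d2 p.r q.r) with h | h
      · rw [← h]; exact hq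
      · rw [h] at hq
        exact absurd hq ((d2_mem_R hD p.r.2 q.r.2).2 n hn).1
    by_contra hne
    obtain ⟨m, hm⟩ : ∃ m, lev p.fs q.fs = m := ⟨_, rfl⟩
    rcases lt_trichotomy m n with h | rfl | h
    · have := P.g_lt w p.fs p.fs h
      have h2 := (P.g_bd w p.fs hn).1
      rcases eq_or_ne m 0 with rfl | hm0
      · unfold Pairs.d1 at h1; rw [hm, Pairs.g_zero] at h1
        exact absurd h1 (P.s_pos n).ne
      · have h3 := (P.g_bd w p.fs hm0).2
        have h4 := P.s_mono' h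
        unfold Pairs.d1 at h1; rw [hm] at h1; linarith
    · rw [d1_level w hm hn, if_neg hne] at h1
      exact absurd h1 (P.lt m).ne'
    · have h3 := (P.g_bd w p.fs (show m ≠ 0 by omega)).1
      have h4 := P.s_mono' h
      have h5 := P.lt n
      unfold Pairs.d1 at h1; rw [hm] at h1; linarith
  · intro h
    obtain ⟨T, hT⟩ := lev_exists p.fs n
    refine ⟨⟨T, p.r⟩, ?_⟩
    rw [dist_def]
    change max (P.d1 w p.fs T) (Pairs.d2 p.r p.r) = _
    rw [d1_level w hT hn, if_pos h, d2_self]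
    exact max_eq_left (P.s_pos n).le

lemma distSet_eq : @distSet (Sp P w) (Sp.ms hD w) = D := by
  ext a
  constructor
  · rintro ⟨p, q, rfl⟩
    rw [dist_def]
    rcases max_choice (P.d1 w p.fs q.fs) (Pairs.d2 p.r q.r) with h | h <;> rw [h]
    · exact g_mem w _ _ hD
    · exact (d2_mem_R hD p.r.2 q.r.2).1
  · intro ha
    by_cases hR : a ∈ P.R
    · refine ⟨⟨∅, ⟨0, zero_R hD⟩⟩, ⟨∅, ⟨a, hR⟩⟩, ?_⟩
      rw [dist_def]
      change max (P.d1 w ∅ ∅) (Pairs.d2 0 a) = a
      rw [Pairs.d1_self]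
      unfold Pairs.d2
      have := hD.nonneg a ha
      split_ifs with h0
      · rw [← h0, max_self]
      · rw [max_eq_right (le_max_left _ _), max_eq_right this]
    · have : ∃ n, n ≠ 0 ∧ (a = P.s n ∨ a = P.t n) := by
        by_contra hc
        push Not at hc
        exact hR ⟨ha, fun n hn => hc n hn⟩
      obtain ⟨n, hn, h⟩ := this
      have key : ∀ S : Finset ℕ, ∃ p q : Sp P w, @dist _ (Sp.ms hD w).toDist p q =
          if decide (n ∈ S) = w n then P.s n else P.t n := by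
        intro S
        obtain ⟨T, hT⟩ := lev_exists S n
        refine ⟨⟨S, ⟨0, zero_R hD⟩⟩, ⟨T, ⟨0, zero_R hD⟩⟩, ?_⟩
        rw [dist_def]
        change max (P.d1 w S T) (Pairs.d2 0 0) = _
        rw [d1_level w hT hn, d2_self]
        refine max_eq_left ?_
        have h1 := P.s_pos n
        have h2 := P.lt n
        split_ifs <;> linarith
      rcases h with rfl | rfl
      · cases hw : w n
        · obtain ⟨p, q, h⟩ := key ∅
          exact ⟨p, q, by rw [h]; simp [hw]⟩
        · obtain ⟨p, q, h⟩ := key {n}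
          exact ⟨p, q, by rw [h]; simp [hw]⟩
      · cases hw : w n
        · obtain ⟨p, q, h⟩ := key {n}
          exact ⟨p, q, by rw [h]; simp [hw]⟩
        · obtain ⟨p, q, h⟩ := key ∅
          exact ⟨p, q, by rw [h]; simp [hw]⟩

lemma ultra : @IsUltrametricDist (Sp P w) (Sp.ms hD w).toDist := by
  letI := Sp.ms (P := P) hD w
  constructor
  intro p q r
  rw [dist_def, dist_def, dist_def]
  have h1 := P.d1_ultra w p.fs q.fs r.fs
  have h2 := d2_ultra (Sp.nn hD p) (Sp.nn hD q) (Sp.nn hD r)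
  refine max_le (h1.trans (max_le ?_ ?_)) (h2.trans (max_le ?_ ?_))
  · exact le_max_of_le_left (le_max_left _ _)
  · exact le_max_of_le_right (le_max_left _ _)
  · exact le_max_of_le_left (le_max_right _ _)
  · exact le_max_of_le_right (le_max_right _ _)

end

/-- isometric spaces have almost the same words -/
lemma no_iso {w w' : ℕ → Bool} (h : ∀ N, ∃ n, N ≤ n ∧ w n ≠ w' n) :
    IsEmpty (@IsometryEquiv (Sp P w) (Sp P w') (Sp.ms hD w).toPseudoMetricSpace.toPseudoEMetricSpace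
      (Sp.ms hD w').toPseudoMetricSpace.toPseudoEMetricSpace) := by
  letI := Sp.ms (P := P) hD w
  letI := Sp.ms (P := P) hD w'
  refine ⟨fun e => ?_⟩
  set p : Sp P w := ⟨∅, ⟨0, zero_R hD⟩⟩ with hp
  obtain ⟨N, hN⟩ : ∃ N : ℕ, ∀ m ∈ (e p).fs, m < N :=
    ⟨(e p).fs.sup Nat.succ, fun m h => Finset.le_sup (f := Nat.succ) h⟩
  obtain ⟨n, hn, hne⟩ := h (N + 1)
  have h1 := pattern hD w p (n := n) (by omega)
  have h2 := pattern hD w' (e p) (n := n) (by omega)
  have h3 : (∃ q, dist p q = P.s n) ↔ ∃ q, dist (e p) q = P.s n := by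
    constructor
    · rintro ⟨q, hq⟩; exact ⟨e q, by rw [e.dist_eq]; exact hq⟩
    · rintro ⟨q, hq⟩
      obtain ⟨q', rfl⟩ := e.surjective q
      exact ⟨q', by rw [← e.dist_eq]; exact hq⟩
  have h4 : n ∉ (e p).fs := fun h => by have := hN n h; omega
  have h5 : n ∉ p.fs := by simp [hp]
  have h6 : (false = w n) ↔ (false = w' n) := by
    have h1' : (∃ q, dist p q = P.s n) ↔ false = w n := by
      rw [decide_eq_false h5] at h1; exact h1
    have h2' : (∃ q, dist (e p) q = P.s n) ↔ false = w' n := by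
      rw [decide_eq_false h4] at h2; exact h2
    exact h1'.symm.trans (h3.trans h2')
  revert hne h6
  cases w n <;> cases w' n <;> simp

/-- all the spaces are at distance zero -/
lemma dGH_zero (w w' : ℕ → Bool) : @dGH (Sp P w) (Sp P w') (Sp.ms hD w) (Sp.ms hD w') = 0 := by
  letI := Sp.ms (P := P) hD w
  letI := Sp.ms (P := P) hD w'
  refine le_antisymm (ENNReal.le_of_forall_pos_le_add fun ε ε0 _ => ?_) bot_le
  obtain ⟨N, hN⟩ := exists_nat_one_div_lt (K := ℝ) (NNReal.coe_pos.2 ε0)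
  let A : Finset ℕ := (Finset.range N).filter fun n => w n ≠ w' n
  let f : Sp P w → Sp P w' := fun p => ⟨p.fs ∆ A, p.r⟩
  have hpos : (0 : ℝ) < ε := ε0
  have hd1 : ∀ S T : Finset ℕ, |P.d1 w S T - P.d1 w' (S ∆ A) (T ∆ A)| ≤ 2 * ε := by
    intro S T
    have e : lev (S ∆ A) (T ∆ A) = lev S T := by
      rw [lev, symmDiff_symmDiff_symmDiff_comm (α := Finset ℕ), symmDiff_self, symmDiff_bot, lev]
    rcases eq_or_ne (lev S T) 0 with h0 | h0
    · rw [lev_eq_zero h0, P.d1_self, P.d1_self]; simp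
    rw [d1_level w rfl h0, d1_level w' rfl (by rw [e]; exact h0), e]
    rcases lt_or_ge (lev S T) N with h | h
    · have : (decide (lev S T ∈ S ∆ A) = w' (lev S T)) ↔ (decide (lev S T ∈ S) = w (lev S T)) := by
        have hA : lev S T ∈ A ↔ w (lev S T) ≠ w' (lev S T) := by simp [A, h]
        simp only [Finset.mem_symmDiff, hA]
        by_cases hS : lev S T ∈ S <;> cases w (lev S T) <;> cases w' (lev S T) <;> simp [hS]
      simp only [this, sub_self, abs_zero]; positivity
    · have a1 := P.close (lev S T)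
      have a2 := P.lt (lev S T)
      have a3 : 1 / ((lev S T : ℝ) + 1) ≤ 1 / ((N : ℝ) + 1) := by
        have : (N : ℝ) ≤ lev S T := by exact_mod_cast h
        exact one_div_le_one_div_of_le (by positivity) (by linarith)
      split_ifs <;> rw [abs_le] <;> constructor <;> linarith
  have H : ∀ p q : Sp P w, |dist (id p) (id q) - dist (f p) (f q)| ≤ 2 * ε := fun p q => by
    rw [id, id, dist_def, dist_def]
    exact (abs_max_sub_max_le_abs _ _ _).trans (hd1 p.fs q.fs)
  haveI : Nonempty (Sp P w) := ⟨⟨∅, ⟨0, zero_R hD⟩⟩⟩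
  letI := glueMetricApprox id f ε hpos H
  refine (iInf_le_of_le (Sp P w ⊕ Sp P w') (iInf_le_of_le inferInstance (iInf_le_of_le Sum.inl
    (iInf_le_of_le Sum.inr (iInf_le_of_le (Isometry.of_dist_eq fun _ _ => rfl)
      (iInf_le_of_le (Isometry.of_dist_eq fun _ _ => rfl) ?_))))))
  have e : ∀ p, edist (Sum.inl p : Sp P w ⊕ Sp P w') (Sum.inr (f p)) ≤ 0 + ε := fun p => by
    rw [edist_dist, zero_add]
    exact (congrArg ENNReal.ofReal (glueDist_glued_points id f ε p)).trans_le (by simp)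
  refine hausdorffEDist_le_of_mem_edist ?_ ?_
  · rintro _ ⟨p, rfl⟩; exact ⟨_, ⟨_, rfl⟩, e p⟩
  · rintro _ ⟨q, rfl⟩
    obtain ⟨p, rfl⟩ : ∃ p, f p = q :=
      ⟨⟨q.fs ∆ A, q.r⟩, Sp.ext (symmDiff_symmDiff_cancel_right (α := Finset ℕ) _ _) rfl⟩
    exact ⟨_, ⟨p, rfl⟩, by rw [edist_comm]; exact e p⟩

end Pool.Agent.KS6_9.GH
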