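import Mathlib

/-! Ultrametric spaces on the finite sets of natural numbers, with prescribed distances. -/

set_option autoImplicit false

open Set Metric
open scoped symmDiff ENNReal

namespace Pool.Agent.KS6_9.GH

/-- The distance set of `X`. -/
def distSet (X : Type) [MetricSpace X] : Set ℝ := {r | ∃ x y : X, dist x y = r}

/-- The Gromov-Hausdorff distance of arbitrary metric spaces: the infimum of the Hausdorff
distances of isometric copies in a common metric space. -/
noncomputable def dGH (X Y : Type) [MetricSpace X] [MetricSpace Y] : ℝ≥0∞ :=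
  ⨅ (Z : Type) (_ : MetricSpace Z) (φ : X → Z) (ψ : Y → Z) (_ : Isometry φ) (_ : Isometry ψ),
    hausdorffEDist (range φ) (range ψ)

def lev (S T : Finset ℕ) : ℕ := (S ∆ T).sup Nat.succ

lemma lev_comm (S T : Finset ℕ) : lev S T = lev T S := by rw [lev, symmDiff_comm, lev]

lemma lev_mem {S T : Finset ℕ} {n : ℕ} (h : lev S T ≤ n) : n ∈ S ↔ n ∈ T := by
  by_contra e
  have : n ∈ S ∆ T := by rw [Finset.mem_symmDiff]; tauto
  have := Finset.le_sup (f := Nat.succ) this
  unfold lev at h; omega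

lemma lev_self (S : Finset ℕ) : lev S S = 0 := by simp [lev]

lemma lev_eq_zero {S T : Finset ℕ} (h : lev S T = 0) : S = T :=
  Finset.ext fun n => lev_mem (by omega)

lemma lev_tri (S T U : Finset ℕ) : lev S U ≤ max (lev S T) (lev T U) := by
  rw [lev, lev, lev, ← Finset.sup_union]
  exact Finset.sup_mono (symmDiff_triangle (α := Finset ℕ) S T U)

/-- there is a point at every level -/
lemma lev_exists (S : Finset ℕ) (n : ℕ) : ∃ T, lev S T = n := by
  rcases n with _ | n
  · exact ⟨S, lev_self S⟩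
  · refine ⟨S ∆ {n}, ?_⟩
    rw [lev, symmDiff_symmDiff_cancel_left (α := Finset ℕ)]
    simp

/-- two increasing sequences of positive numbers in `D`, `s n < t n < s (n + 1)` -/
structure Pairs (D : Set ℝ) where
  s : ℕ → ℝ
  t : ℕ → ℝ
  s_mem : ∀ n, s n ∈ D
  t_mem : ∀ n, t n ∈ D
  s_pos : ∀ n, 0 < s n
  lt : ∀ n, s n < t n
  lt' : ∀ n, t n < s (n + 1)
  close : ∀ n, t n - s n ≤ 1 / ((n : ℝ) + 1)

variable {D : Set ℝ} (P : Pairs D)

namespace Pairs

lemma s_mono' {m n : ℕ} (h : m < n) : P.t m < P.s n := by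
  induction n with
  | zero => omega
  | succ n ih =>
    rcases Nat.lt_succ_iff_lt_or_eq.1 h with h | rfl
    · linarith [ih h, P.lt n, P.lt' n]
    · exact P.lt' _

/-- the distance at level `n` -/
noncomputable def g (w : ℕ → Bool) (S : Finset ℕ) (n : ℕ) : ℝ :=
  if n = 0 then 0 else if decide (n ∈ S) = w n then P.s n else P.t n

variable (w : ℕ → Bool)

lemma g_zero (S : Finset ℕ) : P.g w S 0 = 0 := by simp [g]

lemma g_bd (S : Finset ℕ) {n : ℕ} (h : n ≠ 0) : P.s n ≤ P.g w S n ∧ P.g w S n ≤ P.t n := by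
  have := P.lt n
  unfold g; rw [if_neg h]; split_ifs <;> constructor <;> linarith

lemma g_nonneg (S : Finset ℕ) (n : ℕ) : 0 ≤ P.g w S n := by
  rcases eq_or_ne n 0 with rfl | h
  · rw [g_zero]
  · exact (P.s_pos n).le.trans (P.g_bd w S h).1

lemma g_lt (S T : Finset ℕ) {m n : ℕ} (h : m < n) : P.g w S m < P.g w T n := by
  have h2 := (P.g_bd w T (n := n) (by omega)).1
  rcases eq_or_ne m 0 with rfl | hm
  · rw [g_zero]; exact (P.s_pos n).trans_le h2
  · exact (P.g_bd w S hm).2.trans_lt ((P.s_mono' h).trans_le h2)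

lemma g_congr {S T : Finset ℕ} {n : ℕ} (h : lev S T ≤ n) : P.g w S n = P.g w T n := by
  unfold g; simp only [lev_mem h]

/-- The first distance. -/
noncomputable def d1 (S T : Finset ℕ) : ℝ := P.g w S (lev S T)

lemma d1_comm (S T : Finset ℕ) : P.d1 w S T = P.d1 w T S := by
  unfold d1; rw [lev_comm T S]; exact P.g_congr w le_rfl

lemma d1_self (S : Finset ℕ) : P.d1 w S S = 0 := by rw [d1, lev_self, g_zero]

lemma d1_nonneg (S T : Finset ℕ) : 0 ≤ P.d1 w S T := P.g_nonneg w S _

lemma d1_eq_zero {S T : Finset ℕ} (h : P.d1 w S T = 0) : S = T := by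
  by_contra e
  have : 0 < lev S T := Nat.pos_of_ne_zero fun h' => e (lev_eq_zero h')
  have := P.g_lt w S S this
  rw [g_zero] at this
  unfold d1 at h; linarith

lemma d1_ultra (S T U : Finset ℕ) : P.d1 w S U ≤ max (P.d1 w S T) (P.d1 w T U) := by
  rcases le_max_iff.1 (lev_tri S T U) with h | h
  · refine le_max_of_le_left ?_
    unfold d1
    rcases h.lt_or_eq with h | h
    · exact (P.g_lt w S S h).le
    · rw [h]
  · refine le_max_of_le_right ?_
    rw [P.d1_comm w S U, P.d1_comm w T U]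
    unfold d1
    rw [lev_comm U S, lev_comm U T]
    rcases h.lt_or_eq with h | h
    · exact (P.g_lt w U U h).le
    · rw [h]

/-- the other elements of `D` -/
def R : Set ℝ := {a | a ∈ D ∧ ∀ n, n ≠ 0 → a ≠ P.s n ∧ a ≠ P.t n}

open Classical in
/-- the ultrametric `max a b` -/
noncomputable def d2 (a b : ℝ) : ℝ := if a = b then 0 else max a b

end Pairs

lemma d2_comm (a b : ℝ) : Pairs.d2 a b = Pairs.d2 b a := by
  unfold Pairs.d2; rw [max_comm]; simp only [eq_comm]

lemma d2_self (a : ℝ) : Pairs.d2 a a = 0 := by simp [Pairs.d2]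

lemma d2_nonneg {a b : ℝ} (ha : 0 ≤ a) : 0 ≤ Pairs.d2 a b := by
  unfold Pairs.d2; split_ifs
  · exact le_rfl
  · exact le_max_of_le_left ha

lemma d2_ultra {a b c : ℝ} (ha : 0 ≤ a) (hb : 0 ≤ b) (hc : 0 ≤ c) :
    Pairs.d2 a c ≤ max (Pairs.d2 a b) (Pairs.d2 b c) := by
  have h0 : 0 ≤ max (Pairs.d2 a b) (Pairs.d2 b c) := le_max_of_le_left (d2_nonneg ha)
  unfold Pairs.d2 at *
  by_cases h1 : a = c
  · rw [if_pos h1]; exact h0
  · by_cases h2 : a = b
    · subst h2; simp [h1]
    · by_cases h3 : b = c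
      · subst h3; simp [h1]
      · simp only [h1, h2, h3, if_false]
        refine max_le ?_ ?_
        · exact le_max_of_le_left (le_max_left _ _)
        · exact le_max_of_le_right (le_max_right _ _)

/-- A set of nonnegative numbers containing zero. -/
structure Ok (D : Set ℝ) : Prop where
  zero : (0 : ℝ) ∈ D
  nonneg : ∀ a ∈ D, 0 ≤ a

/-- The space. -/
@[ext] structure Sp (P : Pairs D) (w : ℕ → Bool) : Type where
  fs : Finset ℕ
  r : P.R

namespace Sp

variable {P : Pairs D} {w : ℕ → Bool}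

noncomputable def dd (p q : Sp P w) : ℝ := max (P.d1 w p.fs q.fs) (Pairs.d2 p.r q.r)

lemma nn (hD : Ok D) (p : Sp P w) : (0 : ℝ) ≤ p.r := hD.nonneg _ p.r.2.1

@[reducible] noncomputable def ms (hD : Ok D) (w : ℕ → Bool) : MetricSpace (Sp P w) where
  dist := dd
  dist_self p := by unfold dd; rw [P.d1_self, d2_self, max_self]
  dist_comm p q := by unfold dd; rw [P.d1_comm, d2_comm]
  dist_triangle p q r := by
    have h1 := P.d1_ultra w p.fs q.fs r.fs
    have h2 := d2_ultra (nn hD p) (nn hD q) (nn hD r)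
    have a1 := P.d1_nonneg w p.fs q.fs
    have a2 := P.d1_nonneg w q.fs r.fs
    change max _ _ ≤ max _ _ + max _ _
    have b1 := le_max_left (P.d1 w p.fs q.fs) (Pairs.d2 p.r q.r)
    have b2 := le_max_right (P.d1 w p.fs q.fs) (Pairs.d2 p.r q.r)
    have b3 := le_max_left (P.d1 w q.fs r.fs) (Pairs.d2 q.r r.r)
    have b4 := le_max_right (P.d1 w q.fs r.fs) (Pairs.d2 q.r r.r)
    refine max_le (h1.trans (max_le ?_ ?_)) (h2.trans (max_le ?_ ?_)) <;> linarith
  eq_of_dist_eq_zero {p q} h := by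
    have h' : max (P.d1 w p.fs q.fs) (Pairs.d2 p.r q.r) = 0 := h
    have b1 := le_max_left (P.d1 w p.fs q.fs) (Pairs.d2 p.r q.r)
    have b2 := le_max_right (P.d1 w p.fs q.fs) (Pairs.d2 p.r q.r)
    have e1 : P.d1 w p.fs q.fs = 0 := le_antisymm (by linarith) (P.d1_nonneg w _ _)
    have e2 : Pairs.d2 (p.r : ℝ) q.r ≤ 0 := by linarith
    refine Sp.ext (P.d1_eq_zero w e1) (Subtype.ext ?_)
    by_contra hne
    unfold Pairs.d2 at e2
    rw [if_neg hne] at e2
    have c1 := nn hD p
    have c2 := nn hD q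
    have c3 := le_max_left (p.r : ℝ) q.r
    have c4 := le_max_right (p.r : ℝ) q.r
    exact hne (le_antisymm (by linarith) (by linarith))

end Sp

end Pool.Agent.KS6_9.GH
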